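import Pool.Agent.Q248.KN.Basic

/-!
# Maximum `[0,2]`-sum-free sets in cyclic groups
-/

namespace Pool.Agent.Results.MP_c3b97e_co.Equality

open Finset
open scoped Pointwise
open Pool.Agent.Q248.KN Pool.Agent.Helper591.Kneser

/-- The `h`-fold sumset `hA` (repetition allowed), with `0A = {0}`. -/
def fold {n : ℕ} (A : Set (ZMod n)) : ℕ → Set (ZMod n)
  | 0 => {0}
  | (h + 1) => {x | ∃ y ∈ fold A h, ∃ a ∈ A, x = y + a}

/-- `A` is `H`-sum-free: `h₁A` and `h₂A` are disjoint for all distinct `h₁, h₂ ∈ H`. -/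
def SumFree {n : ℕ} (H : Set ℕ) (A : Set (ZMod n)) : Prop :=
  ∀ h₁ ∈ H, ∀ h₂ ∈ H, h₁ ≠ h₂ → Disjoint (fold A h₁) (fold A h₂)

/-- `μ(ℤ_n, H)`: the maximal size of an `H`-sum-free subset of `ℤ_n`. -/
noncomputable def mu (n : ℕ) (H : Set ℕ) : ℕ :=
  sSup {k : ℕ | ∃ A : Set (ZMod n), SumFree H A ∧ A.ncard = k}

open Classical in
/-- `v₂(n, 4)`. -/
noncomputable def v₂ (n : ℕ) : ℚ :=
  if h : ∃ p : ℕ, p.Prime ∧ p % 4 = 3 ∧ p ∣ n then
    (1 + 1 / (Nat.find h : ℚ)) * (n / 4)
  else ((n / 4 : ℕ) : ℚ)

theorem fold_one {n : ℕ} (A : Set (ZMod n)) : fold A 1 = A := by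
  ext x
  constructor
  · rintro ⟨y, hy, a, ha, rfl⟩
    have : y = 0 := hy
    rw [this, zero_add]; exact ha
  · intro hx
    exact ⟨0, rfl, x, hx, (zero_add x).symm⟩

theorem mem_fold_two {n : ℕ} (A : Set (ZMod n)) (x : ZMod n) :
    x ∈ fold A 2 ↔ ∃ a ∈ A, ∃ b ∈ A, x = a + b := by
  constructor
  · rintro ⟨y, hy, a, ha, rfl⟩
    rw [fold_one] at hy
    exact ⟨y, hy, a, ha, rfl⟩
  · rintro ⟨a, ha, b, hb, rfl⟩
    exact ⟨a, by rw [fold_one]; exact ha, b, hb, rfl⟩

/-- what the condition says for `H = [0,2]` -/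
theorem sumFree_iff {n : ℕ} (A : Set (ZMod n)) : SumFree (Set.Icc 0 2) A ↔
    (0 : ZMod n) ∉ A ∧ (∀ a ∈ A, ∀ b ∈ A, a + b ≠ 0) ∧ ∀ a ∈ A, ∀ b ∈ A, a + b ∉ A := by
  constructor
  · intro h
    have h01 := h 0 (by simp) 1 (by simp) (by norm_num)
    have h02 := h 0 (by simp) 2 (by simp) (by norm_num)
    have h12 := h 1 (by simp) 2 (by simp) (by norm_num)
    rw [fold_one] at h01 h12
    rw [Set.disjoint_left] at h01 h02 h12
    refine ⟨fun h0 => h01 (a := 0) rfl h0, fun a ha b hb hab => ?_, fun a ha b hb hab => ?_⟩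
    · exact h02 (a := 0) rfl ((mem_fold_two A 0).2 ⟨a, ha, b, hb, hab.symm⟩)
    · exact h12 hab ((mem_fold_two A _).2 ⟨a, ha, b, hb, rfl⟩)
  · rintro ⟨h0, h1, h2⟩
    have e01 : Disjoint (fold A 0) (fold A 1) := by
      rw [fold_one, Set.disjoint_left]
      intro x hx hxA
      have : x = 0 := hx
      rw [this] at hxA
      exact h0 hxA
    have e02 : Disjoint (fold A 0) (fold A 2) := by
      rw [Set.disjoint_left]
      intro x hx hxA
      have : x = 0 := hx
      rw [this, mem_fold_two] at hxA
      obtain ⟨a, ha, b, hb, e⟩ := hxA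
      exact h1 a ha b hb e.symm
    have e12 : Disjoint (fold A 1) (fold A 2) := by
      rw [fold_one, Set.disjoint_left]
      intro x hx hxA
      rw [mem_fold_two] at hxA
      obtain ⟨a, ha, b, hb, rfl⟩ := hxA
      exact h2 a ha b hb hx
    intro i hi j hj hij
    have hi2 : i ≤ 2 := hi.2
    have hj2 : j ≤ 2 := hj.2
    interval_cases i <;> interval_cases j <;> first
      | exact absurd rfl hij
      | exact e01
      | exact e01.symm
      | exact e02
      | exact e02.symm
      | exact e12
      | exact e12.symm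

/-- The upper bound in terms of divisors. -/
theorem upper {n : ℕ} [NeZero n] (A : Finset (ZMod n)) (h0 : (0 : ZMod n) ∉ A)
    (h1 : ∀ a ∈ A, ∀ b ∈ A, a + b ≠ 0) (h2 : ∀ a ∈ A, ∀ b ∈ A, a + b ∉ A) :
    A.card ≤ n / 4 ∨ ∃ d e : ℕ, d * e = n ∧ A.card ≤ (d + 1) / 4 * e := by
  classical
  rcases A.eq_empty_or_nonempty with rfl | hA
  · left; simp
  have hneg : (-A).Nonempty := hA.neg
  set D := A + (-A) with hD
  set H := stab D with hH
  set e := (els H).card with he
  have he0 : 0 < e := card_els_pos H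
  have hkn := kneser_full hA hneg
  rw [← hD, ← hH] at hkn
  set A' := A + els H with hA'
  have hnegA' : (-A) + els H = -A' := (neg_add_els H A).symm
  rw [hnegA', Finset.card_neg] at hkn
  -- disjointness
  have hDA : Disjoint D A := by
    rw [Finset.disjoint_left]
    intro x hx hxA
    rw [hD, Finset.mem_add] at hx
    obtain ⟨a, ha, b, hb, rfl⟩ := hx
    rw [Finset.mem_neg'] at hb
    have := h2 _ hxA _ hb
    apply this
    rw [show a + b + -b = a by abel]
    exact ha
  have hDnA : Disjoint D (-A) := by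
    rw [Finset.disjoint_left] at hDA ⊢
    intro x hx hxA
    rw [Finset.mem_neg'] at hxA
    apply hDA _ hxA
    rw [hD, Finset.mem_add] at hx ⊢
    obtain ⟨a, ha, b, hb, rfl⟩ := hx
    rw [Finset.mem_neg'] at hb
    exact ⟨-b, hb, -a, by rw [Finset.mem_neg', neg_neg]; exact ha, by abel⟩
  have hDA' : Disjoint D A' := disjoint_add_els le_rfl hDA
  have hDnA' : Disjoint D (-A') := by
    rw [← hnegA']
    exact disjoint_add_els le_rfl hDnA
  -- sizes
  set P := A' ∩ (-A') with hP
  have hU : (A' ∪ (-A')).card + P.card = 2 * A'.card := by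
    rw [hP, Finset.card_union_add_card_inter, Finset.card_neg]; ring
  have hn : Fintype.card (ZMod n) = n := ZMod.card n
  have htot : D.card + (A' ∪ (-A')).card ≤ n := by
    rw [← Finset.card_union_of_disjoint (Finset.disjoint_union_right.2 ⟨hDA', hDnA'⟩)]
    exact (Finset.card_le_univ _).trans hn.le
  -- A inside P
  have hAP : 2 * (A ∩ P).card ≤ P.card := by
    have hd : Disjoint (A ∩ P) (-(A ∩ P)) := by
      rw [Finset.disjoint_left]
      intro x hx hx'
      rw [Finset.mem_neg'] at hx'
      exact h1 x (mem_inter.1 hx).1 (-x) (mem_inter.1 hx').1 (by abel)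
    have hs : (A ∩ P) ∪ (-(A ∩ P)) ⊆ P := by
      intro x hx
      rw [mem_union] at hx
      rcases hx with hx | hx
      · exact (mem_inter.1 hx).2
      · rw [Finset.mem_neg'] at hx
        have h3 := (mem_inter.1 hx).2
        rw [hP, mem_inter, Finset.mem_neg'] at h3 ⊢
        rw [neg_neg] at h3
        exact ⟨h3.2, h3.1⟩
    have := card_le_card hs
    rw [Finset.card_union_of_disjoint hd, Finset.card_neg] at this
    omega
  have hAA : A.card + P.card ≤ A'.card + (A ∩ P).card := by
    have h3 : A ∪ P ⊆ A' := Finset.union_subset (subset_add_els H A) (by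
      rw [hP]; exact Finset.inter_subset_left)
    have h4 := card_le_card h3
    have h5 := Finset.card_union_add_card_inter A P
    omega
  -- divisibility
  obtain ⟨d, hd⟩ := card_els_dvd H
  rw [hn, ← he] at hd
  obtain ⟨k, hk⟩ := card_dvd_of_le_stab (le_stab_add_els H A)
  rw [← hA', ← he] at hk
  by_cases hPe : P = ∅
  · right
    refine ⟨d, e, by rw [hd, mul_comm], ?_⟩
    rw [hPe, card_empty] at hU hAA
    rw [Finset.inter_empty, card_empty] at hAA
    have h6 : 4 * (e * k) ≤ e * d + e := by
      rw [← hk, ← hd]; omega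
    have h7 : 4 * k ≤ d + 1 := by
      have : e * (4 * k) ≤ e * (d + 1) := by
        calc e * (4 * k) = 4 * (e * k) := by ring
          _ ≤ e * d + e := h6
          _ = e * (d + 1) := by ring
      exact Nat.le_of_mul_le_mul_left this he0
    calc A.card ≤ A'.card := by omega
      _ = k * e := by rw [hk, mul_comm]
      _ ≤ (d + 1) / 4 * e := Nat.mul_le_mul_right _ (by omega)
  · left
    have hPper : H ≤ stab P := by
      intro g hg
      apply mem_stab_of_forall
      intro x hx
      rw [hP, mem_inter, Finset.mem_neg'] at hx ⊢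
      refine ⟨(le_stab_add_els H A hg x).2 hx.1, ?_⟩
      rw [neg_add]
      exact (le_stab_add_els H A (H.neg_mem hg) (-x)).2 hx.2
    have hPe' : e ≤ P.card := by
      rw [he]
      exact Nat.le_of_dvd (Finset.card_pos.2 (Finset.nonempty_iff_ne_empty.2 hPe))
        (card_dvd_of_le_stab hPper)
    omega

/-- The intervals of cosets. -/
theorem lower {n : ℕ} (hn : 0 < n) (d e : ℕ) (hde : d * e = n) :
    ∃ A : Set (ZMod n), SumFree (Set.Icc 0 2) A ∧ A.ncard = (d + 1) / 4 * e := by
  classical
  haveI : NeZero n := ⟨hn.ne'⟩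
  have hd0 : 0 < d := Nat.pos_of_ne_zero (by rintro rfl; omega)
  set k := (d + 1) / 4 with hk
  set A : Set (ZMod n) := {x | k ≤ x.val % d ∧ x.val % d < 2 * k} with hA
  have hdn : d ∣ n := ⟨e, hde.symm⟩
  have hadd : ∀ a b : ZMod n, (a + b).val % d = (a.val % d + b.val % d) % d := by
    intro a b
    rw [ZMod.val_add, Nat.mod_mod_of_dvd _ hdn, Nat.add_mod]
  refine ⟨A, ?_, ?_⟩
  · rw [sumFree_iff]
    refine ⟨?_, ?_, ?_⟩
    · rintro ⟨h1, h2⟩
      rw [ZMod.val_zero, Nat.zero_mod] at h1 h2
      omega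
    · rintro a ⟨ha1, ha2⟩ b ⟨hb1, hb2⟩ hab
      have h1 := hadd a b
      rw [hab, ZMod.val_zero, Nat.zero_mod] at h1
      have h2 : a.val % d + b.val % d < d := by omega
      rw [Nat.mod_eq_of_lt h2] at h1
      omega
    · rintro a ⟨ha1, ha2⟩ b ⟨hb1, hb2⟩ ⟨h3, h4⟩
      have h2 : a.val % d + b.val % d < d := by omega
      rw [hadd, Nat.mod_eq_of_lt h2] at h3 h4
      omega
  · -- counting
    have h1 : A.ncard = ((univ : Finset (ZMod n)).filter
        (fun x => k ≤ x.val % d ∧ x.val % d < 2 * k)).card := by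
      rw [← Set.ncard_coe_finset]
      congr 1
      ext x
      simp [hA]
    rw [h1]
    have h2 : ((univ : Finset (ZMod n)).filter (fun x => k ≤ x.val % d ∧ x.val % d < 2 * k)).card =
        ((range k) ×ˢ (range e)).card := by
      apply Finset.card_bij' (fun x _ => (x.val % d - k, x.val / d))
        (fun p _ => ((p.1 + k + d * p.2 : ℕ) : ZMod n))
      · intro x hx
        rw [mem_filter] at hx
        rw [mem_product, mem_range, mem_range]
        refine ⟨by simp only; omega, ?_⟩
        rw [Nat.div_lt_iff_lt_mul hd0, mul_comm, hde]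
        exact ZMod.val_lt x
      · rintro ⟨i, j⟩ hp
        rw [mem_product, mem_range, mem_range] at hp
        have hp1 : i < k := hp.1
        have hp2 : j < e := hp.2
        have hlt : i + k + d * j < n := by
          have : d * (j + 1) ≤ d * e := Nat.mul_le_mul_left _ hp2
          rw [Nat.mul_add, mul_one, hde] at this
          omega
        rw [mem_filter]
        refine ⟨mem_univ _, ?_⟩
        rw [ZMod.val_natCast_of_lt hlt, Nat.add_mul_mod_self_left,
          Nat.mod_eq_of_lt (show i + k < d by omega)]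
        omega
      · intro x hx
        rw [mem_filter] at hx
        simp only
        have h3 : x.val % d - k + k + d * (x.val / d) = x.val := by
          rw [Nat.sub_add_cancel hx.2.1]
          exact Nat.mod_add_div _ _
        rw [h3, ZMod.natCast_zmod_val]
      · rintro ⟨i, j⟩ hp
        rw [mem_product, mem_range, mem_range] at hp
        have hp1 : i < k := hp.1
        have hp2 : j < e := hp.2
        have hlt : i + k + d * j < n := by
          have : d * (j + 1) ≤ d * e := Nat.mul_le_mul_left _ hp2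
          rw [Nat.mul_add, mul_one, hde] at this
          omega
        simp only
        rw [ZMod.val_natCast_of_lt hlt, Nat.add_mul_mod_self_left,
          Nat.mod_eq_of_lt (show i + k < d by omega), Nat.add_mul_div_left _ _ hd0,
          Nat.div_eq_of_lt (show i + k < d by omega)]
        ext <;> simp
    rw [h2, card_product, card_range, card_range]

/-- every number that is `3` modulo `4` has a prime factor that is `3` modulo `4` -/
theorem exists_prime_factor {d : ℕ} (hd : d % 4 = 3) : ∃ p : ℕ, p.Prime ∧ p % 4 = 3 ∧ p ∣ d := by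
  by_contra hcon
  push Not at hcon
  have h0 : d ≠ 0 := by rintro rfl; omega
  have key : ∀ l : List ℕ, (∀ p ∈ l, p.Prime ∧ p ≠ 2 ∧ p % 4 ≠ 3) → l.prod % 4 = 1 := by
    intro l
    induction l with
    | nil => intro _; rfl
    | cons a l ih =>
      intro h
      have h1 := ih (fun p hp => h p (List.mem_cons_of_mem _ hp))
      obtain ⟨h2, h3, h4⟩ := h a List.mem_cons_self
      have h5 : a % 4 = 1 := by
        have := h2.eq_two_or_odd
        omega
      rw [List.prod_cons, Nat.mul_mod, h1, h5]
  have h1 := key d.primeFactorsList (fun p hp => by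
    have hp1 := Nat.prime_of_mem_primeFactorsList hp
    have hp2 := Nat.dvd_of_mem_primeFactorsList hp
    refine ⟨hp1, ?_, fun h => hcon p hp1 h hp2⟩
    rintro rfl
    omega)
  rw [Nat.prod_primeFactorsList h0] at h1
  omega

/-- For every positive integer `n`, `μ(ℤ_n, [0,2]) = v₂(n, 4)`. -/
theorem result (n : ℕ) (hn : 0 < n) : (mu n (Set.Icc 0 2) : ℚ) = v₂ n := by
  classical
  haveI : NeZero n := ⟨hn.ne'⟩
  set S : Set ℕ := {k : ℕ | ∃ A : Set (ZMod n), SumFree (Set.Icc 0 2) A ∧ A.ncard = k} with hS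
  have hbdd : BddAbove S := by
    refine ⟨n, ?_⟩
    rintro k ⟨A, _, rfl⟩
    have := Set.ncard_le_card A
    rwa [Nat.card_zmod] at this
  have hne : S.Nonempty := by
    obtain ⟨A, hA, hc⟩ := lower hn n 1 (mul_one n)
    exact ⟨_, A, hA, hc⟩
  -- lower bounds
  have hlow : ∀ d e : ℕ, d * e = n → (d + 1) / 4 * e ≤ mu n (Set.Icc 0 2) := by
    intro d e hde
    obtain ⟨A, hA, hc⟩ := lower hn d e hde
    exact le_csSup hbdd ⟨A, hA, hc⟩
  -- upper bound
  have hup : mu n (Set.Icc 0 2) ≤ n / 4 ∨ ∃ d e : ℕ, d * e = n ∧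
      mu n (Set.Icc 0 2) ≤ (d + 1) / 4 * e := by
    obtain ⟨A, hA, hc⟩ := Nat.sSup_mem hne hbdd
    have hc' : A.ncard = mu n (Set.Icc 0 2) := hc
    rw [← hc']
    have hfin : A.Finite := Set.toFinite A
    rw [sumFree_iff] at hA
    have h := upper hfin.toFinset (fun h0 => hA.1 (hfin.mem_toFinset.1 h0))
      (fun a ha b hb => hA.2.1 a (hfin.mem_toFinset.1 ha) b (hfin.mem_toFinset.1 hb))
      (fun a ha b hb hab => hA.2.2 a (hfin.mem_toFinset.1 ha) b (hfin.mem_toFinset.1 hb)
        (hfin.mem_toFinset.1 hab))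
    rwa [← Set.ncard_eq_toFinset_card A hfin] at h
  unfold v₂
  split_ifs with h
  · set p := Nat.find h with hp
    obtain ⟨hpp, hp4, hpn⟩ := Nat.find_spec h
    rw [← hp] at hpp hp4 hpn
    obtain ⟨e, he⟩ := hpn
    have hp0 : (0 : ℚ) < (p : ℚ) := by exact_mod_cast hpp.pos
    have hval : (1 + 1 / (p : ℚ)) * (n / 4) = (((p + 1) / 4 * e : ℕ) : ℚ) := by
      obtain ⟨t, ht⟩ : ∃ t, p + 1 = 4 * t := ⟨(p + 1) / 4, by omega⟩
      rw [ht, Nat.mul_div_cancel_left _ (by norm_num : 0 < 4), he]
      have ht' : (p : ℚ) + 1 = 4 * t := by exact_mod_cast ht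
      push_cast
      field_simp
      rw [ht']; ring
    rw [hval]
    apply le_antisymm
    · have h4 : n ≤ 4 * ((p + 1) / 4 * e) := by
        obtain ⟨t, ht⟩ : ∃ t, p + 1 = 4 * t := ⟨(p + 1) / 4, by omega⟩
        rw [ht, Nat.mul_div_cancel_left _ (by norm_num : 0 < 4), he]
        calc p * e ≤ (p + 1) * e := Nat.mul_le_mul_right _ (by omega)
          _ = 4 * (t * e) := by rw [ht]; ring
      rcases hup with h3 | ⟨d, e', hde, h3⟩
      · have : mu n (Set.Icc 0 2) ≤ (p + 1) / 4 * e := by omega
        exact_mod_cast this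
      · by_cases hd4 : d % 4 = 3
        · obtain ⟨q, hq1, hq2, hq3⟩ := exists_prime_factor hd4
          have hpq : p ≤ q := Nat.find_min' h ⟨hq1, hq2, hq3.trans ⟨e', hde.symm⟩⟩
          have hqd : q ≤ d := Nat.le_of_dvd (by omega) hq3
          have hpd : p ≤ d := hpq.trans hqd
          refine (show (mu n (Set.Icc 0 2) : ℚ) ≤ (((d + 1) / 4 * e' : ℕ) : ℚ) by
            exact_mod_cast h3).trans ?_
          obtain ⟨t, ht⟩ : ∃ t, p + 1 = 4 * t := ⟨(p + 1) / 4, by omega⟩
          obtain ⟨t', ht'⟩ : ∃ t', d + 1 = 4 * t' := ⟨(d + 1) / 4, by omega⟩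
          rw [ht, ht', Nat.mul_div_cancel_left _ (by norm_num : 0 < 4),
            Nat.mul_div_cancel_left _ (by norm_num : 0 < 4)]
          have h5 : 4 * (t' * e') ≤ 4 * (t * e) := by
            have h6 : 4 * (t' * e') = n + e' := by
              calc 4 * (t' * e') = (d + 1) * e' := by rw [ht']; ring
                _ = d * e' + e' := by ring
                _ = n + e' := by rw [hde]
            have h7 : 4 * (t * e) = n + e := by
              calc 4 * (t * e) = (p + 1) * e := by rw [ht]; ring
                _ = p * e + e := by ring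
                _ = n + e := by rw [← he]
            have h8 : e' ≤ e := by
              by_contra hcon
              push Not at hcon
              have : p * e < d * e' := by
                calc p * e ≤ d * e := Nat.mul_le_mul_right _ hpd
                  _ < d * e' := Nat.mul_lt_mul_of_pos_left hcon (by omega)
              omega
            omega
          have h9 : t' * e' ≤ t * e := by omega
          exact_mod_cast h9
        · have h5 : (d + 1) / 4 * e' ≤ n / 4 := by
            rw [Nat.le_div_iff_mul_le (by norm_num)]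
            have h6 : (d + 1) / 4 * 4 ≤ d := by omega
            calc (d + 1) / 4 * e' * 4 = ((d + 1) / 4 * 4) * e' := by ring
              _ ≤ d * e' := Nat.mul_le_mul_right _ h6
              _ = n := hde
          have : mu n (Set.Icc 0 2) ≤ (p + 1) / 4 * e := by omega
          exact_mod_cast this
    · have := hlow p e he.symm
      exact_mod_cast this
  · push Not at h
    have hn4 : n % 4 ≠ 3 := by
      intro hc
      obtain ⟨q, hq1, hq2, hq3⟩ := exists_prime_factor hc
      exact h q hq1 hq2 hq3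
    have h1 : mu n (Set.Icc 0 2) = n / 4 := by
      apply le_antisymm
      · rcases hup with h3 | ⟨d, e', hde, h3⟩
        · exact h3
        · have hd4 : d % 4 ≠ 3 := by
            intro hc
            obtain ⟨q, hq1, hq2, hq3⟩ := exists_prime_factor hc
            exact h q hq1 hq2 (hq3.trans ⟨e', hde.symm⟩)
          have h5 : (d + 1) / 4 * e' ≤ n / 4 := by
            rw [Nat.le_div_iff_mul_le (by norm_num)]
            have h6 : (d + 1) / 4 * 4 ≤ d := by omega
            calc (d + 1) / 4 * e' * 4 = ((d + 1) / 4 * 4) * e' := by ring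
              _ ≤ d * e' := Nat.mul_le_mul_right _ h6
              _ = n := hde
          omega
      · have := hlow n 1 (mul_one n)
        omega
    exact_mod_cast h1

end Pool.Agent.Results.MP_c3b97e_co.Equality
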